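import Pool.Agent.W2helper18.RX.Stm

set_option autoImplicit false

/-! The final step: the choice of `L` and the lower bound for the number of the primes. -/

namespace Pool.Agent.W2helper18.RX

open Finset Filter Pool.Agent.H197R2.PG

/-- the choice of `L` -/
noncomputable def LL (X : ℕ) : ℕ := Nat.log 2 X / 32

lemma LL_facts : ∀ᶠ X : ℕ in atTop, 2 * (2 : ℝ) ^ LL X ≤ (X : ℝ) ^ (1 / 16 : ℝ) ∧
    (X : ℝ) ^ (1 / 16 : ℝ) ≤ X / (4 * Real.log X) ∧ Real.log X / 64 ≤ LL X ∧ (LL X : ℝ) ≤ Real.log X ∧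
    1 ≤ Real.log X := by
  have hlog : Tendsto (fun x : ℕ => Real.log (x : ℝ)) atTop atTop :=
    Real.tendsto_log_atTop.comp tendsto_natCast_atTop_atTop
  have h0 : ∀ᶠ t : ℝ in atTop, 4 * t ≤ Real.exp (t / 2) := by
    have h1 := (Real.tendsto_exp_div_pow_atTop 1).eventually_ge_atTop 8
    have h2 : Tendsto (fun L : ℝ => L / 2) atTop atTop := tendsto_id.atTop_div_const (by norm_num)
    filter_upwards [h2.eventually h1, eventually_gt_atTop 0] with L h hL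
    rw [le_div_iff₀ (by positivity)] at h
    nlinarith
  filter_upwards [hlog.eventually h0, hlog.eventually_ge_atTop 200] with X h1 h2
  have hX1 : (1 : ℝ) < X := by
    by_contra hcon
    push Not at hcon
    have := Real.log_nonpos (Nat.cast_nonneg X) hcon
    linarith
  have hX0 : (0 : ℝ) < X := by linarith
  have hXn : X ≠ 0 := by
    rintro rfl
    simp at hX0
  have hexp : Real.exp (Real.log X) = X := Real.exp_log hX0
  have hl2 := Real.log_two_gt_d9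
  have hl2' := Real.log_two_lt_d9
  -- `2 ^ (log2 X) ≤ X < 2 ^ (log2 X + 1)`
  have ha : (2 : ℝ) ^ Nat.log 2 X ≤ X := by exact_mod_cast Nat.pow_log_le_self 2 hXn
  have hb : (X : ℝ) ≤ (2 : ℝ) ^ (Nat.log 2 X + 1) := by
    exact_mod_cast (Nat.lt_pow_succ_log_self (by norm_num) X).le
  have ha' : (Nat.log 2 X : ℝ) * Real.log 2 ≤ Real.log X := by
    have := Real.log_le_log (by positivity) ha
    rwa [Real.log_pow] at this
  have hb' : Real.log X ≤ ((Nat.log 2 X : ℝ) + 1) * Real.log 2 := by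
    have := Real.log_le_log hX0 hb
    rw [Real.log_pow] at this
    push_cast at this
    exact this
  have hd1 : (Nat.log 2 X : ℝ) < 32 * (LL X : ℝ) + 32 := by
    have : Nat.log 2 X < 32 * (Nat.log 2 X / 32) + 32 := by omega
    unfold LL
    exact_mod_cast this
  have hd2 : 32 * (LL X : ℝ) ≤ Nat.log 2 X := by
    have : 32 * (Nat.log 2 X / 32) ≤ Nat.log 2 X := by omega
    unfold LL
    exact_mod_cast this
  have hLup : 32 * (LL X : ℝ) * Real.log 2 ≤ Real.log X := by nlinarith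
  refine ⟨?_, ?_, ?_, ?_, by linarith⟩
  · have e1 : (2 : ℝ) ^ LL X = Real.exp (LL X * Real.log 2) := by
      rw [← Real.log_pow, Real.exp_log (by positivity)]
    have e2 : (X : ℝ) ^ (1 / 16 : ℝ) = Real.exp (Real.log X * (1 / 16)) := Real.rpow_def_of_pos hX0 _
    have e3 : (2 : ℝ) = Real.exp (Real.log 2) := (Real.exp_log (by norm_num)).symm
    rw [e1, e2]
    nth_rewrite 1 [e3]
    rw [← Real.exp_add]
    apply Real.exp_le_exp.2
    nlinarith
  · rw [le_div_iff₀ (by linarith)]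
    have e2 : (X : ℝ) ^ (1 / 16 : ℝ) = Real.exp (Real.log X * (1 / 16)) := Real.rpow_def_of_pos hX0 _
    calc (X : ℝ) ^ (1 / 16 : ℝ) * (4 * Real.log X) ≤ Real.exp (Real.log X * (1 / 2)) * Real.exp (Real.log X / 2) := by
          rw [e2]
          apply mul_le_mul _ h1 (by linarith) (Real.exp_pos _).le
          apply Real.exp_le_exp.2
          linarith
      _ = X := by
          rw [← Real.exp_add]
          nth_rewrite 3 [← hexp]
          congr 1
          ring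
  · nlinarith
  · nlinarith

lemma QL_card : ∀ᶠ X : ℕ in atTop, (X : ℝ) / (4 * Real.log X) ≤ #(QL (LL X) X) := by
  filter_upwards [QQ_card, LL_facts] with X h1 ⟨h2, h3, _, _, h6⟩
  have hsub : QQ X ⊆ QL (LL X) X ∪ Ioc 0 (2 ^ (LL X + 1)) := by
    intro p hp
    unfold QQ at hp
    rw [mem_filter, mem_Ioc] at hp
    rw [mem_union]
    by_cases h : 2 ^ (LL X + 1) < p
    · left
      unfold QL
      rw [mem_filter, mem_Ioc]
      exact ⟨⟨h, hp.1.2⟩, hp.2⟩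
    · right
      rw [mem_Ioc]
      exact ⟨hp.2.pos, not_lt.1 h⟩
  have h4 : (#(QQ X) : ℝ) ≤ #(QL (LL X) X) + 2 * (2 : ℝ) ^ LL X := by
    have h5 := (Finset.card_le_card hsub).trans (card_union_le _ _)
    rw [Nat.card_Ioc] at h5
    have h7 : (2 : ℝ) * 2 ^ LL X = ((2 ^ (LL X + 1) : ℕ) : ℝ) := by push_cast; ring
    rw [h7]
    exact_mod_cast (by simpa using h5)
  have h8 : (X : ℝ) / (2 * Real.log X) = X / (4 * Real.log X) + X / (4 * Real.log X) := by
    field_simp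
    ring
  rw [h8] at h1
  linarith

theorem final (hC : ∃ C : ℝ, 1 ≤ C ∧ ∀ L : ℕ,
    ∑ z ∈ (Icc 1 L).offDiag, gg (Nat.dist (sh z.1) (sh z.2)) ≤ C * (L : ℝ) ^ 2) (hD : P_D) :
    ∃ c : ℝ, 0 < c ∧ ∃ X₀ : ℕ, ∀ X : ℕ, X₀ ≤ X → c * X ≤ #(RL (LL X) X) := by
  obtain ⟨C1, hC1, hC⟩ := hC
  obtain ⟨C2, hC2, X0, hD⟩ := hD
  obtain ⟨X1, hX1⟩ := eventually_atTop.1 (QL_card.and LL_facts)
  refine ⟨1 / (256 * (1 + 4 * C1 * C2)), by positivity, max X0 X1 + 1, fun X hX => ?_⟩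
  obtain ⟨q1, f1, -, f3, f4, f5⟩ := hX1 X (by omega)
  have hd := hD (LL X) X (by omega) f1
  have hc := hC (LL X)
  obtain ⟨ℓ, hℓ⟩ : ∃ ℓ : ℝ, ℓ = Real.log X := ⟨_, rfl⟩
  obtain ⟨q, hq⟩ : ∃ q : ℝ, q = #(QL (LL X) X) := ⟨_, rfl⟩
  obtain ⟨R, hR⟩ : ∃ R : ℝ, R = #(RL (LL X) X) := ⟨_, rfl⟩
  obtain ⟨L, hL⟩ : ∃ L : ℝ, L = LL X := ⟨_, rfl⟩
  obtain ⟨sg, hsg⟩ : ∃ s : ℝ, s = ∑ z ∈ (Icc 1 (LL X)).offDiag, gg (Nat.dist (sh z.1) (sh z.2)) := ⟨_, rfl⟩
  rw [← hsg, ← hq, ← hR, ← hL, ← hℓ] at hd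
  rw [← hsg, ← hL] at hc
  rw [← hq, ← hℓ] at q1
  rw [← hL, ← hℓ] at f3 f4
  rw [← hℓ] at f5
  rw [← hR]
  have hXp : (0 : ℝ) < X := by
    have : 0 < X := by omega
    exact_mod_cast this
  have hℓ0 : 0 < ℓ := by linarith
  have hL0 : 0 < L := by linarith
  have hq0 : 0 < q := lt_of_lt_of_le (by positivity) q1
  have hR0 : 0 ≤ R := by rw [hR]; exact Nat.cast_nonneg _
  have hXq : (X : ℝ) ≤ 4 * ℓ * q := by
    rw [div_le_iff₀ (by positivity)] at q1
    linarith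
  -- the main inequality
  have h1 : C2 * sg * X / ℓ ^ 2 ≤ 4 * C1 * C2 * (L * q) := by
    rw [div_le_iff₀ (by positivity)]
    have e1 : C2 * sg * X ≤ C2 * (C1 * L ^ 2) * (4 * ℓ * q) := by
      apply mul_le_mul (mul_le_mul_of_nonneg_left hc (by linarith)) hXq hXp.le (by positivity)
    have e2 : L ^ 2 ≤ L * ℓ := by nlinarith
    have e3 : C2 * (C1 * L ^ 2) * (4 * ℓ * q) ≤ C2 * (C1 * (L * ℓ)) * (4 * ℓ * q) := by gcongr
    linarith [e1, e3, (by ring : C2 * (C1 * (L * ℓ)) * (4 * ℓ * q) = 4 * C1 * C2 * (L * q) * ℓ ^ 2)]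
  have h2 : (L * q) ^ 2 ≤ R * ((1 + 4 * C1 * C2) * (L * q)) := by
    refine hd.trans (mul_le_mul_of_nonneg_left ?_ hR0)
    linarith
  have hLq : 0 < L * q := by positivity
  have h3 : L * q ≤ R * (1 + 4 * C1 * C2) := by
    have : (L * q) * (L * q) ≤ (R * (1 + 4 * C1 * C2)) * (L * q) := by
      calc _ = (L * q) ^ 2 := by ring
        _ ≤ _ := h2
        _ = _ := by ring
    exact le_of_mul_le_mul_right this hLq
  have h4 : (X : ℝ) / 256 ≤ L * q := by
    have e1 : ℓ / 64 * (X / (4 * ℓ)) ≤ L * q := mul_le_mul f3 q1 (by positivity) hL0.le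
    have e2 : ℓ / 64 * (X / (4 * ℓ)) = X / 256 := by field_simp; ring
    linarith
  rw [one_div, inv_mul_le_iff₀ (by positivity)]
  nlinarith

end Pool.Agent.W2helper18.RX
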