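import Pool.Agent.H197R2.PG6

/-!
# Project RX (MP_fc7299_nt): a positive proportion of all integers are `x + y` with `2 ^ x + y` prime

Romanoff's method for the shifts `2 ^ x - x`. The pair sieve with the sharp dependence on the difference is
`Pool.Agent.H197R2.PG.pair_sieve_sharp`; `gg h = ∏_{p ∣ h} (1 + 1 / p)` (`H197R2/PG1.lean`).
-/

set_option autoImplicit false

namespace Pool.Agent.W2helper18.RX

open Finset Pool.Agent.H197R2.PG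

/-- the shift `2 ^ x - x` -/
def sh (x : ℕ) : ℕ := 2 ^ x - x

/-- the integer `n` is a sum of `x ≤ L` and `y`, both positive, with `2 ^ x + y` prime -/
def Rep (L n : ℕ) : Prop := ∃ x y : ℕ, 0 < x ∧ x ≤ L ∧ 0 < y ∧ n = x + y ∧ (2 ^ x + y).Prime

/-- PIECE A. Proof: let `T = ∑_{p ∈ S} 1 / √p`, `z = ⌈(3 + T) ^ 2⌉`. The product over the `p ≤ z` is at most
`∏_{p ≤ z} (1 + 1 / p) ≤ C log z ≤ C' (1 + T)` (`Pool.Agent.W93.HD.mert_prod`, or `1 + t ≤ exp t` and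
`Pool.Agent.Helper601.Mertens.mertens_inv`); the product over the `p > z` is at most
`exp (∑_{p ∈ S, p > z} 1 / p) ≤ exp (T / √z) ≤ exp 1`. -/
def P_A : Prop := ∃ C : ℝ, 1 ≤ C ∧ ∀ S : Finset ℕ, (∀ p ∈ S, p.Prime) →
  ∏ p ∈ S, (1 + 1 / (p : ℝ)) ≤ C * (1 + ∑ p ∈ S, 1 / √(p : ℝ))

/-- PIECE M. Proof: the factors with `p > L`: there are at most `L` of them, so their product is at most
`(1 + 1 / L) ^ L ≤ exp 1`. The factors with `p ≤ L < p ^ 2`: `exp (∑_{√L < p ≤ L} 1 / p) ≤ C` by Mertens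
(`Pool.Agent.Helper601.Mertens.mertens_inv` at `L` and at `Nat.sqrt L`; `log log L - log log √L` is bounded). -/
def P_M : Prop := ∃ C : ℝ, 1 ≤ C ∧ ∀ (L : ℕ) (S : Finset ℕ), (∀ p ∈ S, p.Prime ∧ L < p ^ 2) →
  #S ≤ L → ∏ p ∈ S, (1 + 1 / (p : ℝ)) ≤ C

/-- PIECE B. Proof: `p = 2` is trivial (`#(Icc 1 L) = L`). For odd `p` let `e = orderOf (2 : ZMod p)`, `1 ≤ e`,
`e ∣ p - 1`. Write `x = x₀ + e k` with `x₀ = x % e`, `k = x / e ≤ L / e`. For fixed `x₀` the condition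
`2 ^ x - x = r` in `ZMod p` is `e k = 2 ^ x₀ - x₀ - r`, which fixes `k` modulo `p` (`e` is invertible modulo
`p`), so there are at most `(L / e) / p + 1` such `k`. Sum over `x₀ < e`: at most `L / p + e ≤ 2 L / p`, since
`e < p ≤ L / p`. (`(2 : ZMod p) ^ x = 2 ^ x₀`: `pow_mod_orderOf`.) -/
def P_B : Prop := ∀ p L : ℕ, p.Prime → p ^ 2 ≤ L → ∀ r : ℤ,
  ((#((Icc 1 L).filter fun x : ℕ => (p : ℤ) ∣ (sh x : ℤ) - r) : ℕ) : ℝ) ≤ 4 * L / p

/-- PIECE C. Proof: for `z` in the sum `h = Nat.dist (sh z.1) (sh z.2)` is positive (`sh` is strictly increasing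
on the positive integers: `sh (x + 1) - sh x = 2 ^ x - 1`) and less than `2 ^ L`, so it has at most `L`
prime factors (`2 ^ #h.primeFactors ≤ ∏ p ≤ h`). By P_A for the `p ∣ h` with `p ^ 2 ≤ L` and P_M for the others
`gg h ≤ C_A C_M (1 + ∑_{p ∣ h, p ^ 2 ≤ L} 1 / √p)`. Sum over `z`, exchange the sums, P_B with `r = sh z.2` for each
`z.2` gives `∑_p L (4 L / p) / √p ≤ C L ^ 2`. -/
def P_C : Prop := P_A → P_M → P_B → ∃ C : ℝ, 1 ≤ C ∧ ∀ L : ℕ,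
  ∑ z ∈ (Icc 1 L).offDiag, gg (Nat.dist (sh z.1) (sh z.2)) ≤ C * (L : ℝ) ^ 2

/-- the primes in `(2 ^ (L + 1), X]` -/
noncomputable def QL (L X : ℕ) : Finset ℕ := (Ioc (2 ^ (L + 1)) X).filter Nat.Prime

open Classical in
/-- the integers up to `X` with a representation with `x ≤ L` -/
noncomputable def RL (L X : ℕ) : Finset ℕ := (Icc 1 X).filter (Rep L)

/-- PIECE D. Proof: as `Pool.Agent.H197R2.PG.second_moment` (`H197R2/PG5.lean`). The pairs `(x, q)`,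
`x ∈ Icc 1 L`, `q ∈ QL L X`, are mapped to `n = q - sh x` in `RL L X` (`y = n - x = q - 2 ^ x > 0`).
Cauchy-Schwarz: `(L #QL) ^ 2 ≤ #RL * #{(x, q, x', q') : q - sh x = q' - sh x'}`. The quadruples with `x = x'` have
`q = q'`: at most `L #QL`. For `x ≠ x'` and `h = Nat.dist (sh x) (sh x') > 0` the smaller of the primes `q`, `q'` is a
prime `n ≤ X` with `n + h` prime; at most `C gg (2 h) X / log ^ 2 X` by `pair_sieve_sharp` (with `a = 0`, `u = X`), and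
`gg (2 h) ≤ 3 / 2 gg h` (`gg_two_mul_le`). -/
def P_D : Prop := ∃ C : ℝ, 1 ≤ C ∧ ∃ X0 : ℕ, ∀ L X : ℕ, X0 ≤ X →
  2 * (2 : ℝ) ^ L ≤ (X : ℝ) ^ (1 / 16 : ℝ) →
  ((L : ℝ) * #(QL L X)) ^ 2 ≤ #(RL L X) * ((L : ℝ) * #(QL L X) +
    C * (∑ z ∈ (Icc 1 L).offDiag, gg (Nat.dist (sh z.1) (sh z.2))) * X / Real.log X ^ 2)

end Pool.Agent.W2helper18.RX
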